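import Pool.Agent.H61.KW.TB

/-!
# Row MN1 of board KW: an essential face which is transversal to all other points
-/

set_option autoImplicit false

open Topology Set
open Pool.Agent.H59 Pool.Agent.H64.LB Pool.Agent.H61.KV Pool.Agent.H61.KW
open Pool.Agent.H61.KU hiding rk

namespace Pool.Agent.H83.KW.MN1

theorem pf_MN1 (h : T_R1S) (h2 : T_XSP) (h3 : T_XOU) (h4 : T_FIG) (h5 : T_SCE) : T_MN1 := by
  intro V _ _ _ m K q hq hov r hr hrM
  have hC : IsCC (Cn m) := K.cc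
  have hqC : q ∈ Cn m := K.mem q hq
  by_contra hcon
  push Not at hcon
  obtain ⟨hr0, hrE⟩ := hcon
  have hrk : 2 ≤ rk (Cn m) r := by
    by_contra hlt
    push Not at hlt
    exact hrE (ex_of_rk hC hr hr0 (by omega))
  -- parallel extreme vectors
  have hpar : ∀ x y, Ex (Cn m) x → Ex (Cn m) y → y ∉ Submodule.span ℝ {x} →
      y ∉ Fc (Cn m) x ∧ x ∉ Fc (Cn m) y := by
    intro x y hx hy hxy
    constructor
    · intro hm
      obtain ⟨c, -, hc⟩ := ex_par hC hx hy hm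
      apply hxy
      rw [hc]
      exact Submodule.smul_mem _ _ (Submodule.mem_span_singleton_self x)
    · intro hm
      obtain ⟨c, -, hc⟩ := ex_par hC hx hy (ex_symm hC hy hx hm)
      apply hxy
      rw [hc]
      exact Submodule.smul_mem _ _ (Submodule.mem_span_singleton_self x)
  -- two extreme vectors in a face of rank at least 2
  have hone : ∀ p ∈ Cn m, 1 ≤ rk (Cn m) p → ∃ x, Ex (Cn m) x ∧ x ∈ Fc (Cn m) p := by
    intro p hp hp1
    obtain ⟨x, hx, hxp, -⟩ := h2 V (Cn m) p ⊥ hC hp (by rw [finrank_bot]; omega)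
    exact ⟨x, hx, hxp⟩
  have htwo : ∀ p ∈ Cn m, 2 ≤ rk (Cn m) p → ∀ x, Ex (Cn m) x →
      ∃ y, Ex (Cn m) y ∧ y ∈ Fc (Cn m) p ∧ y ∉ Submodule.span ℝ {x} := by
    intro p hp hp2 x hx
    refine h2 V (Cn m) p (Submodule.span ℝ {x}) hC hp ?_
    rw [finrank_span_singleton hx.2.1]
    omega
  -- a transversal extreme ray
  obtain ⟨g, hg⟩ := K.tr q hq
  have hqg : rk (Cn m) (q + g) = 9 := by
    rw [ov_rk hC K.span hqC hg.mem hg.ov, K.fin]
  obtain ⟨x0, hx0, hx0', hx0q⟩ := h2 V (Cn m) (q + g) (Sp (Cn m) q) hC (hC.add q hqC g hg.mem)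
    (by
      have h6 := K.rk4 q hq
      rw [hqg]
      unfold rk at h6
      omega)
  have hx0n : x0 ∉ Fc (Cn m) q := fun h6 => hx0q (mem_sp h6)
  have hS : Scx (Cn m) q := (h V m K q x0 hq hx0 (hov x0 hx0.1 hx0n)).2
  have hE : ∀ x t, Ex (Cn m) x → x ∉ Fc (Cn m) q → Ex (Cn m) t → t ∈ Fc (Cn m) q →
      Ef m (x + t) := by
    intro x t hx hxq ht htq
    exact (h V m K q x hq hx (hov x hx.1 hxq)).1 t ht htq
  have hjoin : ∀ u v, u ∈ Fc (Cn m) r → v ∈ Fc (Cn m) r → Ef m (u + v) → False := by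
    intro u v hu hv hE'
    exact K.nsub (u + v) hE' ((join hC hr hu hv).trans hrM)
  by_cases hc : ∃ s, s ≠ 0 ∧ s ∈ Fc (Cn m) r ∧ s ∈ Fc (Cn m) q
  · -- Case 2
    obtain ⟨s0, hs0, hs0r, hs0q⟩ := hc
    obtain ⟨s, hs, hss⟩ := hone s0 (mem_C hs0r) (rk_pos hC (mem_C hs0r) hs0)
    have hsr : s ∈ Fc (Cn m) r := tra hC hr hs0r hss
    have hsq : s ∈ Fc (Cn m) q := tra hC hqC hs0q hss
    obtain ⟨x, hx, hxr, hxs⟩ := htwo r hr hrk s hs
    obtain ⟨h6, h7⟩ := hpar s x hs hx hxs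
    by_cases hxq : x ∈ Fc (Cn m) q
    · have h8 := h5 V (Cn m) q x s hC hqC hS hx hs hxq hsq h7
      have h9 : q ∈ Fc (Cn m) r := join hC hr hxr hsr h8
      exact K.nsub q hq ((sub hC hr h9).trans hrM)
    · exact hjoin x s hxr hsr (hE x s hx hxq hs hsq)
  · -- Case 1
    push Not at hc
    have hrq : r ∉ Fc (Cn m) q := fun h6 => hc r hr0 (self hC hr) h6
    have hT : Tf m q r := K.ovf q r hq (hrM (self hC hr)) (hov r hr hrq)
    obtain ⟨x1, hx1, hx1r⟩ := hone r hr (by omega)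
    obtain ⟨x2, hx2, hx2r, hx21⟩ := htwo r hr hrk x1 hx1
    have hq4 := K.rk4 q hq
    obtain ⟨t1, ht1, ht1q⟩ := hone q hqC (by omega)
    obtain ⟨t2, ht2, ht2q, ht21⟩ := htwo q hqC (by omega) t1 ht1
    have hx1q : x1 ∉ Fc (Cn m) q := fun h6 => hc x1 hx1.2.1 hx1r h6
    have hx2q : x2 ∉ Fc (Cn m) q := fun h6 => hc x2 hx2.2.1 hx2r h6
    obtain ⟨ht21', ht12'⟩ := hpar t1 t2 ht1 ht2 ht21
    have hP1 : Ef m (x1 + t1) := hE x1 t1 hx1 hx1q ht1 ht1q
    have hP2 : Ef m (x2 + t2) := hE x2 t2 hx2 hx2q ht2 ht2q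
    obtain ⟨y, hy, hyP1, hyP2⟩ := K.meet _ _ hP1 hP2
    have hrt : ∀ x t, Ex (Cn m) t → x ∈ Fc (Cn m) r → y ∈ Fc (Cn m) (x + t) →
        y ∈ Fc (Cn m) (r + t) := by
      intro x t ht hxr hyx
      have h6 : r + t ∈ Cn m := hC.add r hr t ht.1
      refine tra hC h6 (add_fc hC h6 (tra hC h6 (left_fc hC hr ht.1) hxr)
        (right_fc hC hr ht.1)) hyx
    have hy0 := h4 V (Cn m) q r t1 t2 0 hC (K.ftd q hq) hr hT.foot ht1q ht2q hC.zero
      (by
        intro t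
        constructor
        · intro h6
          rw [fc_of_zero hC h6]
          exact ⟨zero_fc hC ht1.1, zero_fc hC ht2.1⟩
        · rintro ⟨h6, h7⟩
          rw [ex_meet hC ht2.1 ht1 ht12' h6 h7]
          exact zero_fc hC hC.zero)
      y (hrt x1 t1 ht1 hx1r hyP1) (hrt x2 t2 ht2 hx2r hyP2)
    rw [add_zero] at hy0
    have key : ∀ x t t', Ex (Cn m) x → x ∈ Fc (Cn m) r → x ∉ Fc (Cn m) q → Ex (Cn m) t →
        Ex (Cn m) t' → t ∈ Fc (Cn m) q → t' ∈ Fc (Cn m) q → t' ∉ Fc (Cn m) t →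
        y ∈ Fc (Cn m) (x + t) → y ∈ Fc (Cn m) x := by
      intro x t t' hx hxr hxq ht ht' htq ht'q htt hyx
      have hP : Ef m (x + t) := hE x t hx hxq ht htq
      have hPC : x + t ∈ Cn m := hC.add x hx.1 t ht.1
      have hPt : x + t + t' ∈ Cn m := hC.add _ hPC t' ht'.1
      have hxP : x ∈ Fc (Cn m) (x + t + t') :=
        tra hC hPt (left_fc hC hPC ht'.1) (left_fc hC hx.1 ht.1)
      have htP : t ∈ Fc (Cn m) (x + t + t') :=
        tra hC hPt (left_fc hC hPC ht'.1) (right_fc hC hx.1 ht.1)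
      have hqP : q ∈ Fc (Cn m) (x + t + t') := by
        have h6 := h5 V (Cn m) q t t' hC hqC hS ht ht' htq ht'q htt
        exact join hC hPt htP (right_fc hC hPC ht'.1) h6
      have hov' : Ov (Cn m) (x + t) t' := ov_of (hov x hx.1 hxq) hqP hxP
      have hSP : Scx (Cn m) (x + t) := (h V m K (x + t) t' hP ht' hov').2
      by_contra hyx'
      have h6 := h5 V (Cn m) (x + t) x y hC hPC hSP hx hy (left_fc hC hx.1 ht.1) hyx hyx'
      have h7 : x + t ∈ Fc (Cn m) r := join hC hr hxr hy0 h6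
      exact K.nsub (x + t) hP ((sub hC hr h7).trans hrM)
    have hyx1 := key x1 t1 t2 hx1 hx1r hx1q ht1 ht2 ht1q ht2q ht21' hyP1
    have hyx2 := key x2 t2 t1 hx2 hx2r hx2q ht2 ht1 ht2q ht1q ht12' hyP2
    have h6 : x2 ∈ Fc (Cn m) x1 := tra hC hx1.1 hyx1 (ex_symm hC hx2 hy hyx2)
    exact (hpar x1 x2 hx1 hx2 hx21).1 h6

end Pool.Agent.H83.KW.MN1
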